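import Pool.Agent.H466.HE.SA
import Pool.Agent.H249.HD.CK

/-!
# Project HE (helper466): mean square of the coefficients, bands in general position

The proof of `Pool.Agent.H249.HD.ck` (helper249) with the weaker lower edge of the band.
-/

set_option autoImplicit false

namespace Pool.Agent.H100.HE

open Complex MeasureTheory Set Filter Topology
open Pool.Agent.H477.E (MT bc Nn)
open Pool.Agent.H466.HD
open Pool.Agent.H466.HE
open Pool.Agent.H249.HD

noncomputable section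

theorem ckg (h1 : S_DB) (h2 : S_KER) (h3 : S_MVT) : S_CKg := by
  intro β k C0 hB ε hε
  have hC0 := hB.Cp
  obtain ⟨θK, hθK, hK⟩ := h2
  refine ⟨min θK (min (ε / 8) (1 / 16)), by positivity, ?_⟩
  intro θ hθ hθ0
  have hθ1 : θ ≤ θK := hθ0.trans (min_le_left _ _)
  have hθ2 : θ ≤ ε / 8 := hθ0.trans ((min_le_right _ _).trans (min_le_left _ _))
  have hθ3 : θ ≤ 1 / 16 := hθ0.trans ((min_le_right _ _).trans (min_le_right _ _))
  obtain ⟨CK, TK, hCK, hTK, hKer⟩ := hK θ hθ hθ1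
  set B := C0 / ε ^ 8 with hBdef
  have hB0 : 0 ≤ B := by positivity
  refine ⟨4 * (2 * (CK * B ^ 2) + (2 ^ 10 * C0) ^ 2), max TK (max (Real.exp 800) (Real.exp (1 / ε))),
    by positivity, hTK.trans (le_max_left _ _), ?_⟩
  intro T c w hT hBd N
  have hT1 : TK ≤ T := (le_max_left _ _).trans hT
  have hT2 : Real.exp 800 ≤ T := ((le_max_left _ _).trans (le_max_right _ _)).trans hT
  have hT3 : Real.exp (1 / ε) ≤ T := ((le_max_right _ _).trans (le_max_right _ _)).trans hT
  have hT0 : 0 < T := lt_of_lt_of_le (Real.exp_pos _) hT2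
  set L := Real.log T with hL
  have hL1 : 800 ≤ L := (Real.le_log_iff_exp_le hT0).2 hT2
  have hL2 : 1 / ε ≤ L := (Real.le_log_iff_exp_le hT0).2 hT3
  have hL0 : 0 < L := by linarith
  have hεL : 1 ≤ ε * L := by
    rw [div_le_iff₀ hε] at hL2
    linarith
  have hTexp : Real.exp L = T := Real.exp_log hT0
  have hw1 : 1 ≤ w := hεL.trans hBd.w1
  have hw0 : 0 < w := by linarith
  have hlo := hBd.lo
  have hhi := hBd.hi
  have hwε := hBd.w1
  have hεL0 : 0 < ε * L := by positivity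
  have hwL : w ≤ L := by nlinarith
  have hε1 : ε ≤ 1 := by
    have h4 : 4 * ε * L ≤ 1 / 2 * L := by nlinarith
    have h5 : 4 * ε ≤ 1 / 2 := le_of_mul_le_mul_right h4 hL0
    linarith
  -- the interval
  have hIl : T / (4 * L) ≤ T / 2 := by
    apply div_le_div_of_nonneg_left hT0.le (by norm_num)
    linarith
  have hI0 : 0 < T / (4 * L) := by positivity
  set X := T - T / (4 * L) with hX
  set Y := T + T / (4 * L) with hY
  have hXY : X ≤ Y := by linarith
  have hXT : T / 2 ≤ X := by linarith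
  have hYX : Y - X = T / (2 * L) := by
    rw [hX, hY]
    field_simp
    ring
  have hT10 : (10 : ℝ) ≤ T := hTK.trans hT1
  -- the length
  set N0 := ⌊Real.exp (c + w)⌋₊ * Nn θ L with hN0
  have hN0T : (N0 : ℝ) ≤ Real.exp (L / 2) := by
    rw [hN0]
    push_cast
    have e1 : ((⌊Real.exp (c + w)⌋₊ : ℕ) : ℝ) ≤ Real.exp (c + w) := Nat.floor_le (Real.exp_pos _).le
    have e2 : ((Nn θ L : ℕ) : ℝ) ≤ Real.exp (2 * θ * L) := by
      unfold Nn
      refine (Nat.floor_le (Real.exp_pos _).le).trans ?_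
      apply Real.exp_le_exp.2
      push_cast
      linarith
    calc ((⌊Real.exp (c + w)⌋₊ : ℕ) : ℝ) * ((Nn θ L : ℕ) : ℝ)
        ≤ Real.exp (c + w) * Real.exp (2 * θ * L) :=
          mul_le_mul e1 e2 (Nat.cast_nonneg _) (Real.exp_pos _).le
      _ = Real.exp (c + w + 2 * θ * L) := by rw [← Real.exp_add]
      _ ≤ Real.exp (L / 2) := by
          apply Real.exp_le_exp.2
          have : θ * L ≤ ε / 8 * L := mul_le_mul_of_nonneg_right hθ2 hL0.le
          nlinarith
  set S := ∑ j ∈ Finset.Icc 1 N0, ‖cf θ L β c w j‖ ^ 2 / j with hS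
  have hS0 : 0 ≤ S := Finset.sum_nonneg fun j _ => by positivity
  -- reduction to the sum up to `N0`
  have hred : ∑ j ∈ Finset.Icc 1 N, ‖cf θ L β c w j‖ ^ 2 / j ≤ S := by
    have e1 : ∑ j ∈ Finset.Icc 1 (max N N0), ‖cf θ L β c w j‖ ^ 2 / (j : ℝ) = S := by
      rw [hS]
      symm
      apply Finset.sum_subset (Finset.Icc_subset_Icc le_rfl (le_max_right _ _))
      intro j hj1 hj2
      rw [Finset.mem_Icc] at hj1 hj2
      have hj3 : N0 < j := by
        by_contra hcon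
        exact hj2 ⟨hj1.1, by omega⟩
      rw [cf_zero hB hw0 hθ hL0 hj3]
      simp
    rw [← e1]
    apply Finset.sum_le_sum_of_subset_of_nonneg (Finset.Icc_subset_Icc le_rfl (le_max_left _ _))
    intro j _ _
    positivity
  refine hred.trans ?_
  rcases Nat.eq_zero_or_pos N0 with hz | hpos
  · rw [hS, hz]
    simp only [Finset.Icc_eq_empty_of_lt Nat.zero_lt_one, Finset.sum_empty]
    positivity
  have hN1 : (1 : ℝ) ≤ N0 := by exact_mod_cast hpos
  -- mean value theorem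
  set a : ℕ → ℂ := fun j => cf θ L β c w j * cexp (-((Real.log j / 2 : ℝ) : ℂ)) with ha
  have hprod : ∀ y : ℝ, Dn β c w y * Mt θ T y =
      ∑ j ∈ Finset.Icc 1 N0, a j * cexp (-(I * (Real.log j : ℝ) * y)) := by
    intro y
    rw [prod_eq hB hw0 hθ hL0 y]
    refine Finset.sum_congr rfl fun j hj => ?_
    exact term_eq (Finset.mem_Icc.1 hj).1 _ y
  have hSa : ∑ j ∈ Finset.Icc 1 N0, ‖a j‖ ^ 2 = S :=
    Finset.sum_congr rfl fun j hj => term_norm (Finset.mem_Icc.1 hj).1 _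
  have hmvt := h3 ℕ (Finset.Icc 1 N0) (fun j => Real.log j) a (1 / (N0 : ℝ)) X Y (by positivity) hXY
    (fun i hi j hj hij => log_sep' hi hj hij)
  rw [hSa] at hmvt
  have hJ : ∫ t in X..Y, ‖∑ i ∈ Finset.Icc 1 N0, a i * cexp (-(I * ((Real.log i : ℝ) : ℂ) * t))‖ ^ 2 =
      ∫ t in X..Y, ‖Dn β c w t * Mt θ T t‖ ^ 2 := by
    apply intervalIntegral.integral_congr
    intro t _
    show ‖∑ i ∈ Finset.Icc 1 N0, a i * cexp (-(I * ((Real.log i : ℝ) : ℂ) * t))‖ ^ 2 = _
    rw [← hprod t]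
  rw [hJ, hYX, Nat.card_Icc, Nat.add_sub_cancel] at hmvt
  set J := ∫ t in X..Y, ‖Dn β c w t * Mt θ T t‖ ^ 2 with hJd
  have herr : 8 / (1 / (N0 : ℝ)) * (1 + Real.log N0) ≤ T / (4 * L) := by
    have e1 : Real.log N0 ≤ L / 2 := by
      rw [Real.log_le_iff_le_exp (by linarith)]
      exact hN0T
    have e2 : 8 / (1 / (N0 : ℝ)) = 8 * N0 := by field_simp
    rw [e2]
    have e3 : (L / 2) ^ 3 / ((Nat.factorial 3 : ℕ) : ℝ) ≤ Real.exp (L / 2) :=
      Real.pow_div_factorial_le_exp (L / 2) (by linarith) 3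
    have e4 : ((Nat.factorial 3 : ℕ) : ℝ) = 6 := by norm_num [Nat.factorial]
    rw [e4] at e3
    have e5 : 32 * L * (1 + L / 2) ≤ Real.exp (L / 2) := by
      refine le_trans ?_ e3
      have e6 : 800 * L ≤ L * L := mul_le_mul_of_nonneg_right hL1 hL0.le
      have e7 : 1536 + 768 * L ≤ L * L := by linarith
      have e8 : L * (1536 + 768 * L) ≤ L * (L * L) := mul_le_mul_of_nonneg_left e7 hL0.le
      have e9 : (L / 2) ^ 3 / 6 = L * (L * L) / 48 := by ring
      rw [e9]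
      linarith
    have e10 : Real.exp (L / 2) * Real.exp (L / 2) = T := by
      rw [← Real.exp_add, add_halves, hTexp]
    have e11 : 8 * (N0 : ℝ) * (1 + Real.log N0) ≤ 8 * Real.exp (L / 2) * (1 + L / 2) := by
      apply mul_le_mul _ (by linarith) _ (by positivity)
      · linarith
      · have := Real.log_nonneg hN1
        linarith
    rw [le_div_iff₀ (by positivity)]
    calc 8 * (N0 : ℝ) * (1 + Real.log N0) * (4 * L)
        ≤ 8 * Real.exp (L / 2) * (1 + L / 2) * (4 * L) :=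
          mul_le_mul_of_nonneg_right e11 (by positivity)
      _ = Real.exp (L / 2) * (32 * L * (1 + L / 2)) := by ring
      _ ≤ Real.exp (L / 2) * Real.exp (L / 2) := mul_le_mul_of_nonneg_left e5 (Real.exp_pos _).le
      _ = T := e10
  have hlow : T / (4 * L) * S ≤ J := by
    have e1 := (abs_le.1 hmvt).1
    have e2 : 8 / (1 / (N0 : ℝ)) * (1 + Real.log N0) * S ≤ T / (4 * L) * S :=
      mul_le_mul_of_nonneg_right herr hS0
    have e3 : T / (2 * L) * S = 2 * (T / (4 * L) * S) := by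
      field_simp
      ring
    linarith
  -- upper bound
  set G : ℝ → ℂ := fun y => ∫ v : ℝ, Zt (y + v) * Kn k c w v with hG
  have hDG : ∀ y, Dn β c w y = G y + Rn β c w y := fun y => (h1 β k C0 hB c w y hw1).2
  have hGc : Continuous G := by
    have e : G = fun y => Dn β c w y - Rn β c w y := by
      funext y
      rw [hDG y]
      ring
    rw [e]
    exact (Dn_cont β c w).sub (Rn_cont hB c w)
  have hRM : ∀ y ∈ Icc X Y, ‖Rn β c w y * Mt θ T y‖ ≤ 2 ^ 10 * C0 := by
    intro y hy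
    have e1 := Rn_norm hB (c := c) (w := w) (y := y) (Y := T / 2) hw1 (by linarith)
      (hXT.trans hy.1)
    have e2 := Mt_norm (y := y) hθ hL0
    have e3 : Real.exp ((c + w) / 2) ≤ T := by
      rw [← hTexp]
      apply Real.exp_le_exp.2
      nlinarith
    have e4 : Real.exp (2 * θ * L) ≤ T := by
      rw [← hTexp]
      apply Real.exp_le_exp.2
      nlinarith
    rw [norm_mul]
    have e5 : C0 * Real.exp ((c + w) / 2) / (T / 2) ^ 10 ≤ C0 * T / (T / 2) ^ 10 := by
      apply div_le_div_of_nonneg_right _ (by positivity)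
      exact mul_le_mul_of_nonneg_left e3 hC0.le
    calc ‖Rn β c w y‖ * ‖Mt θ T y‖ ≤ C0 * T / (T / 2) ^ 10 * T :=
          mul_le_mul (e1.trans e5) (e2.trans e4) (norm_nonneg _) (by positivity)
      _ = 2 ^ 10 * C0 * (1 / T ^ 8) := by
          field_simp
      _ ≤ 2 ^ 10 * C0 * 1 := by
          apply mul_le_mul_of_nonneg_left _ (by positivity)
          rw [div_le_one (by positivity)]
          exact one_le_pow₀ (by linarith)
      _ = 2 ^ 10 * C0 := mul_one _
  have hup : ∀ y ∈ Icc X Y, ‖Dn β c w y * Mt θ T y‖ ^ 2 ≤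
      2 * (‖G y‖ * ‖Mt θ T y‖) ^ 2 + 2 * (2 ^ 10 * C0) ^ 2 := by
    intro y hy
    have e1 := hRM y hy
    have e2 : ‖Dn β c w y * Mt θ T y‖ ≤ ‖G y‖ * ‖Mt θ T y‖ + 2 ^ 10 * C0 := by
      rw [hDG y, add_mul]
      refine (norm_add_le _ _).trans ?_
      rw [norm_mul (G y)]
      linarith
    have e3 : ‖Dn β c w y * Mt θ T y‖ ^ 2 ≤ (‖G y‖ * ‖Mt θ T y‖ + 2 ^ 10 * C0) ^ 2 :=
      pow_le_pow_left₀ (norm_nonneg _) e2 2
    nlinarith [sq_nonneg (‖G y‖ * ‖Mt θ T y‖ - 2 ^ 10 * C0)]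
  have hMc : Continuous (fun y => Mt θ T y) := Mt_cont θ T
  have hDc : Continuous (fun y => Dn β c w y) := Dn_cont β c w
  have hJle : J ≤ 2 * (CK * B ^ 2 * (T / L)) + (2 ^ 10 * C0) ^ 2 * (T / L) := by
    have e1 : J ≤ ∫ y in X..Y, (2 * (‖G y‖ * ‖Mt θ T y‖) ^ 2 + 2 * (2 ^ 10 * C0) ^ 2) := by
      apply intervalIntegral.integral_mono_on hXY
      · exact (Continuous.intervalIntegrable (by fun_prop) _ _)
      · exact (Continuous.intervalIntegrable (by fun_prop) _ _)
      · exact hup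
    have e2 : ∫ y in X..Y, (2 * (‖G y‖ * ‖Mt θ T y‖) ^ 2 + 2 * (2 ^ 10 * C0) ^ 2) =
        2 * (∫ y in X..Y, (‖G y‖ * ‖Mt θ T y‖) ^ 2) + (Y - X) * (2 * (2 ^ 10 * C0) ^ 2) := by
      rw [intervalIntegral.integral_add, intervalIntegral.integral_const_mul,
        intervalIntegral.integral_const, smul_eq_mul]
      · exact (Continuous.intervalIntegrable (by fun_prop) _ _)
      · exact (Continuous.intervalIntegrable (by fun_prop) _ _)
    have e3 := hKer T hT1 (Kn k c w) B (Kn_cont hB c w) hB0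
      (fun v => Kn_norm hB hε hε1 hL0 hwε hwL v)
    have e4 : (Y - X) * (2 * (2 ^ 10 * C0) ^ 2) = (2 ^ 10 * C0) ^ 2 * (T / L) := by
      rw [hYX]
      field_simp
    rw [e2, e4] at e1
    have e5 : ∫ y in X..Y, (‖G y‖ * ‖Mt θ T y‖) ^ 2 ≤ CK * B ^ 2 * (T / L) := e3
    linarith
  have hfin : T / (4 * L) * S ≤ T / (4 * L) * (4 * (2 * (CK * B ^ 2) + (2 ^ 10 * C0) ^ 2)) := by
    have e1 : T / (4 * L) * (4 * (2 * (CK * B ^ 2) + (2 ^ 10 * C0) ^ 2)) =
        2 * (CK * B ^ 2 * (T / L)) + (2 ^ 10 * C0) ^ 2 * (T / L) := by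
      field_simp
    rw [e1]
    linarith
  exact le_of_mul_le_mul_left hfin hI0

end

end Pool.Agent.H100.HE
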